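import Mathlib
import Pool.Agent.H2.HamDefs
import Pool.Agent.H2.HamProof

open Pool.Agent.H2.Ham Classical

theorem Pool.Agent.Results.MP_098c03_co.FourConnected.result :
    ∃ (P : Finset Pt) (L : Finset Sub), P.Nonempty ∧ (∀ l ∈ L, IsLine l) ∧
      (∀ p ∈ P, (L.filter fun l => On p l).card = 4) ∧
      (∀ l ∈ L, (P.filter fun p => On p l).card = 4) ∧
      KConn (levi P L) 4 ∧ ¬ (levi P L).IsHamiltonian := by
  obtain ⟨P, L, a, b, c, d, G, rfl, f, g, h⟩ := main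
  exact ⟨P, L, a, b, c, d, ⟨by rwa [Nat.card_eq_fintype_card], g⟩, h⟩
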